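import Mathlib
import Pool.Agent.W_MP_d17ed7_nt.Defs
import Pool.Agent.W_MP_d17ed7_nt.General

/-!
Simultaneous vanishing for all quadratic twists, for every Atkin-Lehner eigenform of level `N`
(with `8` not dividing `N` and the odd part of `N` squarefree) and every odd quadratic character
`χ` with `χ(p) = 1` for all primes `p` dividing `N`.
-/

open scoped MatrixGroups ModularForm

namespace Pool.Agent.Results.MP_d17ed7_nt.HeegnerObstruction

open Pool.Agent.W_MP_d17ed7_nt UpperHalfPlane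

/-- Let `N` be a level whose odd part is squarefree and which is not divisible by `8`, let `f` be
a cusp form of weight `k` for `Γ₀(N)` which is an eigenfunction of the Atkin-Lehner operators
`W_Q` for the exact divisors `Q ≠ 1` of `N`, and let `χ` be a primitive quadratic character with
`χ(-1) = -1` and `χ(p) = 1` for all primes `p` dividing `N`. Then for every primitive quadratic
character `ψ` the L-functions of `f` twisted by `ψ` and by `χψ` are entire and the product of
their values at the centre `k / 2` is `0`. -/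
theorem result (N : ℕ) (hN0 : N ≠ 0) (hN : ∀ p : ℕ, p.Prime → p ^ 2 ∣ N → p = 2 ∧ ¬ 8 ∣ N)
    (k : ℤ) (hk : 0 < k) (f : CuspForm (CongruenceSubgroup.Gamma0 N) k)
    (hAL : ∀ Q : ℕ, Q ∣ N → Nat.Coprime Q (N / Q) → Q ≠ 1 → IsAtkinLehnerEigen N k f Q)
    (q : ℕ) [NeZero q] (χ : DirichletCharacter ℂ q) (_hχp : χ.IsPrimitive) (hχ : orderOf χ = 2)
    (hχodd : χ (-1) = -1) (hχN : ∀ p : ℕ, p.Prime → p ∣ N → χ p = 1)
    (m : ℕ) [NeZero m] (ψ : DirichletCharacter ℂ m) (hψp : ψ.IsPrimitive) (hψ : orderOf ψ = 2) :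
    (∃! L₁, IsTwistedL k f ψ L₁) ∧ (∃! L₂, IsTwistedL k f (χ.primitive_mul ψ) L₂) ∧
      ∀ L₁ L₂, IsTwistedL k f ψ L₁ → IsTwistedL k f (χ.primitive_mul ψ) L₂ →
        L₁ ((k : ℂ) / 2) * L₂ ((k : ℂ) / 2) = 0 := by
  have : NeZero N := ⟨hN0⟩
  have hd : CuspData k f := CuspData.of_cuspForm (CongruenceSubgroup.strictWidthInfty_Gamma0 N) f
  exact product_vanishes hN0 hN hk hd (fun γ hγ ↦ f.slash_action_eq' _ ⟨γ, hγ, rfl⟩) hAL hχ hχodd
    hχN hψp hψ

end Pool.Agent.Results.MP_d17ed7_nt.HeegnerObstruction
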