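import Mathlib
import Pool.Agent.W_MP_d17ed7_nt.Defs
import Pool.Agent.W_MP_d17ed7_nt.Level27
import Pool.Agent.W_MP_d17ed7_nt.Coeff27
import Pool.Agent.W_MP_d17ed7_nt.DimOne

/-!
A newform of weight 2 with rational coefficients and quadratic characters `χ` such that the
product of the central values of the twists by `ψ` and by `χψ` vanishes for every quadratic `ψ`.
-/

open scoped MatrixGroups ModularForm

namespace Pool.Agent.Results.MP_d17ed7_nt.WeightTwo

open Pool.Agent.W_MP_d17ed7_nt UpperHalfPlane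

/-- A quadratic character of conductor `5` with value `-1` at `-3`. -/
lemma exists_chi : ∃ χ : DirichletCharacter ℂ 5, χ.IsPrimitive ∧ orderOf χ = 2 ∧ χ (-3) = -1 := by
  have h0 : ¬ IsSquare (2 : ZMod 5) := by decide
  have e3 : (-3 : ZMod 5) = 2 := by decide
  have hu : IsUnit (2 : ZMod 5) := by decide
  have hF : Fact (Nat.Prime 5) := ⟨by norm_num⟩
  have h : quadraticChar (ZMod 5) 2 = -1 := quadraticChar_neg_one_iff_not_isSquare.mpr h0
  set χ : DirichletCharacter ℂ 5 := (quadraticChar (ZMod 5)).ringHomComp (Int.castRingHom ℂ) with hχ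
  have h2 : χ 2 = -1 := by
    rw [hχ, MulChar.ringHomComp_apply, h]
    simp
  have h3 : χ (-3) = -1 := by
    rw [e3, h2]
  have hne : χ ≠ 1 := by
    intro h1
    rw [h1, MulChar.one_apply hu] at h2
    norm_num at h2
  have hsq : χ ^ 2 = 1 := ((quadraticChar_isQuadratic (ZMod 5)).comp _).sq_eq_one
  refine ⟨χ, ?_, ?_, h3⟩
  · rw [DirichletCharacter.isPrimitive_def]
    have h5 : Nat.Prime 5 := by norm_num
    rcases (Nat.dvd_prime h5).mp (DirichletCharacter.conductor_dvd_level χ) with h | h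
    · exact absurd (DirichletCharacter.eq_one_iff_conductor_eq_one.mpr h) hne
    · exact h
  · exact orderOf_eq_prime hsq hne

/-- The cusp form `f = η(3z)^2 η(9z)^2` spans the cusp forms of weight `2` and level `27`, has
integer coefficients and first coefficient `1`. There is a primitive quadratic character `χ`
modulo `5` with `χ(-3) = -1`; and for every primitive quadratic `χ` of conductor prime to `3` with
`χ(-3) = -1`, and every primitive quadratic `ψ`, the twisted L-functions of `f` by `ψ` and by `χψ`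
are entire and the product of their central values is `0`. -/
theorem result :
    ∃ f : CuspForm (CongruenceSubgroup.Gamma0 27) 2,
      (∀ z : ℍ, f z = ModularForm.eta (3 * (z : ℂ)) ^ 2 * ModularForm.eta (9 * (z : ℂ)) ^ 2) ∧
      (∀ g : CuspForm (CongruenceSubgroup.Gamma0 27) 2, ∃ c : ℂ, g = c • f) ∧
      (qExpansion 1 f).coeff 1 = 1 ∧ (∀ n : ℕ, ∃ a : ℤ, (qExpansion 1 f).coeff n = a) ∧
      (∃ χ : DirichletCharacter ℂ 5, χ.IsPrimitive ∧ orderOf χ = 2 ∧ χ (-3) = -1) ∧
      ∀ (q : ℕ) [NeZero q] (χ : DirichletCharacter ℂ q), χ.IsPrimitive → orderOf χ = 2 →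
        Nat.Coprime 3 q → χ (-3) = -1 →
        ∀ (m : ℕ) [NeZero m] (ψ : DirichletCharacter ℂ m), ψ.IsPrimitive → orderOf ψ = 2 →
          (∃! L₁, IsTwistedL 2 f ψ L₁) ∧ (∃! L₂, IsTwistedL 2 f (χ.primitive_mul ψ) L₂) ∧
          ∀ L₁ L₂, IsTwistedL 2 f ψ L₁ → IsTwistedL 2 f (χ.primitive_mul ψ) L₂ →
            L₁ 1 * L₂ 1 = 0 := by
  refine ⟨form27, fun z ↦ rfl, form27_spans, form27_integral.1, form27_integral.2, exists_chi, ?_⟩
  intro q _ χ _ hχ hq3 hχ3 m _ ψ hψp hψ
  exact level27_product hχ hq3 hχ3 hψp hψ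

end Pool.Agent.Results.MP_d17ed7_nt.WeightTwo
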